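import Pool.Agent.Helper20.NP.All

set_option autoImplicit false

/-! # Denominators of conductors: `N_P = 1` iff every element of order `p` of `P` is central -/

namespace Pool.Agent.Results.MP_b6a655_nt.Criterion

open Pool.Agent.Helper21.DN

universe u

/-- For `p` odd and a nontrivial finite `p`-group `P`: `N_P = 1` if and only if every element of
order `p` of `P` is central; and in that case all conductors of `P`-extensions of `k((t))` are
integers. -/
theorem result (p : ℕ) [Fact p.Prime] (hp : p ≠ 2) (k : Type u) [Field k] [CharP k p]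
    [IsAlgClosed k] (P : Type) [Group P] [Finite P] (hP : IsPGroup p P) (hn : Nontrivial P) :
    (NP k P = 1 ↔ ∀ x : P, x ^ p = 1 → x ∈ Subgroup.center P) ∧
    ((∀ x : P, x ^ p = 1 → x ∈ Subgroup.center P) →
      ∀ c ∈ condSet k P, ∃ a : ℤ, c = (a : ℝ)) := by
  obtain ⟨_, h2, h3, _, _, _⟩ := Pool.Agent.Helper20.NP.np_MAIN p hp k P hP hn
  exact ⟨h2, h3⟩

end Pool.Agent.Results.MP_b6a655_nt.Criterion
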