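import Pool.Agent.Helper20.NP.Final

set_option autoImplicit false

/-! # Denominators of conductors: exact value for `|[Ω₁(P), P]| ≤ p` -/

namespace Pool.Agent.Results.MP_b6a655_nt.OmegaFormula

open Pool.Agent.Helper21.DN

universe u

/-- Let `p` be odd and let `P` be a nontrivial finite `p`-group such that `[Ω₁(P), P]` has order
at most `p`, `Ω₁(P)` being the subgroup generated by the elements of order `p`. Then `N_P` is the
largest of the indices `|E : E ∩ Z(P)|`, `E` running through the elementary abelian subgroups of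
`P`. -/
theorem result (p : ℕ) [Fact p.Prime] (hp : p ≠ 2) (k : Type u) [Field k] [CharP k p]
    [IsAlgClosed k] (P : Type) [Group P] [Finite P] (hP : IsPGroup p P) (hn : Nontrivial P)
    (hc : Nat.card (⁅Subgroup.closure {x : P | x ^ p = 1}, (⊤ : Subgroup P)⁆ : Subgroup P) ≤ p) :
    IsGreatest {m : ℕ | ∃ E : Subgroup P, (∀ a ∈ E, ∀ b ∈ E, a * b = b * a) ∧
      (∀ a ∈ E, a ^ p = 1) ∧ m = (Subgroup.center P).relIndex E} (NP k P) := by
  refine Pool.Agent.Helper20.NP.final_om p hp k P hP hn ?_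
  obtain ⟨n, hn⟩ := (hP.to_subgroup
    (⁅Subgroup.closure {x : P | x ^ p = 1}, (⊤ : Subgroup P)⁆)).exists_card_eq
  have hp1 : 1 < p := (Fact.out : p.Prime).one_lt
  rw [hn] at hc ⊢
  have h1 : n ≤ 1 := by
    by_contra h
    have h2 : p ^ 2 ≤ p ^ n := Nat.pow_le_pow_right (by omega) (by omega)
    nlinarith
  calc p ^ n ∣ p ^ 1 := pow_dvd_pow p h1
    _ = p := pow_one p

end Pool.Agent.Results.MP_b6a655_nt.OmegaFormula
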