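import Pool.Agent.Helper21.DN.UPP
import Pool.Agent.Helper21.DN.Main3
import Pool.Agent.Helper61.DN.FQ

set_option autoImplicit false

namespace Pool.Agent.Results.MP_b6a655_nt.UpperBound

open Pool.Agent.Helper21.DN

universe u

/-- **The denominators of the conductors: upper bound for all `p`-groups, with exact values.**
`k` is an algebraically closed field of characteristic `p` and `P` a nontrivial finite `p`-group.
For every conductor `c` of a `P`-Galois extension of `k((t))` there is a central element `z` of
order `p` of `P` with `[P : H] c` an integer for all admissible pairs `R ⊲ H` with `z ∉ R`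
(`Adm`: `H / R` abelian if `p = 2`, all elements of order `p` of `H / R` central if `p` is odd).
So `N_P` divides `BP p P`. For `p` odd, `|F|` divides `N_P` if conjugation in `P` contains the
multiplication of a finite field `F`, and `N_P = BP p P = |F|` if moreover `P` has a subgroup of
index `|F|` all of whose elements of order `p` are central in it. -/
theorem result (p : ℕ) [Fact p.Prime] (k : Type u) [Field k] [CharP k p] [IsAlgClosed k]
    (P : Type) [Group P] [Finite P] (hP : IsPGroup p P) (hnt : Nontrivial P) :
    (0 < NP k P ∧ NP k P ∣ BP p P ∧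
      ∀ c ∈ condSet k P, ∃ z : P, z ∈ Subgroup.center P ∧ orderOf z = p ∧
        ∀ H R : Subgroup P, Adm p H R → z ∉ R → ∃ a : ℤ, (H.index : ℝ) * c = (a : ℝ)) ∧
    (p ≠ 2 → ∀ (F : Type) [Field F] [Finite F] (ι : P → F) (b c : F → P),
      (∀ x y, ι (x * y) = ι x + ι y) → Function.Surjective ι →
      (∀ u v, b (u + v) = b u * b v) → (∀ u v, c (u + v) = c u * c v) →
      (∀ u, c u ∈ Subgroup.center P) → (∃ u, c u ≠ 1) →
      (∀ x u, x * b u * x⁻¹ * (b u)⁻¹ = c (ι x * u)) →
      Nat.card F ∣ NP k P ∧
      ∀ A : Subgroup P, (∀ x ∈ A, x ^ p = 1 → ∀ y ∈ A, x * y = y * x) → A.index = Nat.card F →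
      NP k P = Nat.card F ∧ BP p P = Nat.card F) :=
  main3 np_UPP st_FQ p k P hP hnt

end Pool.Agent.Results.MP_b6a655_nt.UpperBound
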