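import Pool.Agent.Helper26.WR.All

set_option autoImplicit false

/-! # Denominators of conductors: generalised wreath products -/

namespace Pool.Agent.Results.MP_b6a655_nt.WreathFormula

open Pool.Agent.Helper21.DN Pool.Agent.Helper26.WR

universe u

open scoped Classical in
/-- The number `N_P` of a generalised wreath product `P = (∏ j, B j ^ W j) ⋊ Q` (`Q` transitive on
each `W j` and faithful on their union) is the least common multiple of the `|W j| N_(B j)`,
except that for `p = 2` the factor is `|W j| / 2` if `|W j| > 1` and all conductors of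
`B j`-extensions are odd integers. -/
theorem result (p : ℕ) [Fact p.Prime] (k : Type u) [Field k] [CharP k p] [IsAlgClosed k]
    (J : Type) [Fintype J] [Nonempty J] (W B : J → Type) [∀ j, Finite (W j)]
    [∀ j, Nonempty (W j)] [∀ j, Group (B j)] [∀ j, Finite (B j)] [∀ j, Nontrivial (B j)]
    (Q : Type) [Group Q] [Finite Q] [∀ j, MulAction Q (W j)]
    [∀ j, MulAction.IsPretransitive Q (W j)] (hB : ∀ j, IsPGroup p (B j)) (hQ : IsPGroup p Q)
    (hf : ∀ g : Q, (∀ (j : J) (w : W j), g • w = w) → g = 1) :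
    NP k (WreathProduct W B Q) = Finset.univ.lcm (fun j =>
      if p = 2 ∧ Nat.card (W j) ≠ 1 ∧ ∀ c ∈ condSet k (B j), ∃ n : ℤ, c = 2 * (n : ℝ) + 1
      then Nat.card (W j) / 2 else Nat.card (W j) * NP k (B j)) ∧
    (p ≠ 2 → (∀ j (x : B j), x ^ p = 1 → x ∈ Subgroup.center (B j)) →
      NP k (WreathProduct W B Q) = Finset.univ.lcm fun j => Nat.card (W j)) ∧
    (p = 2 → (∀ j (x : B j), x ^ 2 = 1) →
      NP k (WreathProduct W B Q) = Finset.univ.lcm fun j =>
        if Nat.card (W j) = 1 then 1 else Nat.card (W j) / 2) := by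
  have hmain := wr_FIN p k J W B Q hB hQ hf
  refine ⟨?_, ?_, ?_⟩
  · rw [hmain]
    rfl
  · intro hp hc
    rw [hmain]
    refine Finset.lcm_congr rfl fun j _ => ?_
    unfold fac
    rw [if_neg (fun h => hp h.1)]
    obtain ⟨_, h2, _⟩ := Pool.Agent.Helper20.NP.np_MAIN p hp k (B j) (hB j) inferInstance
    rw [h2.mpr (hc j), mul_one]
  · intro hp hc
    subst hp
    rw [hmain]
    have hcomm : ∀ j (x y : B j), x * y = y * x := by
      intro j x y
      have h1 := hc j (x * y)
      have hx := hc j x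
      have hy := hc j y
      rw [pow_two] at h1 hx hy
      have h2 : x * y = (x * y)⁻¹ := eq_inv_of_mul_eq_one_left h1
      rw [h2, mul_inv_rev, ← eq_inv_of_mul_eq_one_left hx, ← eq_inv_of_mul_eq_one_left hy]
    have hodd : ∀ j, ∀ c ∈ condSet k (B j), ∃ n : ℤ, c = 2 * (n : ℝ) + 1 := by
      intro j c hcc
      obtain ⟨n, hn, rfl⟩ := wr_ELA 2 k (B j) (hcomm j) (hc j) c hcc
      have h1 : n % 2 = 1 := by omega
      refine ⟨(n / 2 : ℕ), ?_⟩
      have h2 : n = 2 * (n / 2) + 1 := by omega
      have h3 : (n : ℝ) = 2 * ((n / 2 : ℕ) : ℝ) + 1 := by exact_mod_cast h2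
      rw [h3]
      norm_cast
    refine Finset.lcm_congr rfl fun j _ => ?_
    unfold fac
    by_cases h1 : Nat.card (W j) = 1
    · rw [if_neg (fun h => h.2.1 h1), if_pos h1, h1, one_mul]
      -- `N = 1`
      have h2 : NP k (B j) ∣ 1 := by
        apply (all_NPU k (B j) 1 one_pos ?_).2
        intro c hcc
        obtain ⟨n, hn⟩ := hodd j c hcc
        exact ⟨2 * n + 1, by rw [hn]; push_cast; ring⟩
      exact Nat.dvd_one.mp h2
    · rw [if_pos ⟨rfl, h1, hodd j⟩, if_neg h1]

end Pool.Agent.Results.MP_b6a655_nt.WreathFormula
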